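import Pool.Agent.H9x.BF.Main
import Pool.Agent.H9x.BE.HIER
import Pool.Agent.H9x.RT.PHP

/-!
# A world in which `P = PH` and `EQP = EXP`

There is an oracle relative to which every language of the polynomial hierarchy is in `P`, every
language decided in exponential time is decided *without error* by polynomial-time uniform quantum
circuits over a fixed finite gate set, and some language decided in this way is not in the
polynomial hierarchy.
-/

set_option autoImplicit false

namespace Pool.Agent.Results.MP_2eaaa0_lc.ExactExponentialTime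

open Pool.Agent.NPC Pool.Agent.H620R2.Gauge Pool.Agent.H9x.Q

/-- The language `L` is in `EQP` relative to `A`: a polynomial-time uniform family of quantum circuits
over the gates `H`, `T = diag (1, exp (i π / 4))`, `CNOT` and the oracle gate accepts the inputs in
`L` with probability one and the others with probability zero. -/
def IsEQP (A : Oracle) (L : Set (List Bool)) : Prop :=
  ∃ F : QFamily, ∀ x, (x ∈ L → F.acc A x = 1) ∧ (x ∉ L → F.acc A x = 0)

theorem result : ∃ A : Oracle, (∀ L, IsPH A L → IsP A L) ∧ (∀ L, IsEXP A L → IsEQP A L) ∧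
    ∃ L, IsEQP A L ∧ ¬ IsPH A L := by
  obtain ⟨A, h1, h2⟩ := Pool.Agent.H9x.BF.m_W1
  obtain ⟨L, h3, h4⟩ := Pool.Agent.H9x.BE.t_HIER A
  have h5 : ∀ L, IsPH A L → IsP A L := fun L hL => Pool.Agent.H9x.RT.isP_of_isPH h1 hL
  exact ⟨A, h5, h2, L, h2 L h3, fun h => h4 (h5 L h)⟩

end Pool.Agent.Results.MP_2eaaa0_lc.ExactExponentialTime
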