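import Pool.Agent.K7x.EQ.W1

/-!
# Exact quantum polynomial time and the polynomial hierarchy

For every monotone unbounded function `α` there is an oracle relative to which every language of the
polynomial hierarchy is in `P`, every language in `PSPACE` is in deterministic time `n ^ O(α n)` and
is decided *without error* by polynomial-time uniform quantum circuits over a fixed finite gate set,
and some language decided in this way is not in the polynomial hierarchy.
-/

set_option autoImplicit false

namespace Pool.Agent.Results.MP_2eaaa0_lc.ExactQuantum

open Pool.Agent.NPC Pool.Agent.H620R2.Gauge Pool.Agent.H9x.Q Filter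

/-- The language `L` is in `EQP` relative to `A`: a polynomial-time uniform family of quantum circuits
over the gates `H`, `T = diag (1, exp (i π / 4))`, `CNOT` and the oracle gate accepts the inputs in
`L` with probability one and the others with probability zero. -/
def IsEQP (A : Oracle) (L : Set (List Bool)) : Prop :=
  ∃ F : QFamily, ∀ x, (x ∈ L → F.acc A x = 1) ∧ (x ∉ L → F.acc A x = 0)

/-- The language `L` is decided in time `n ^ O(α n)` relative to `A`: the input `x`, together with
`(|x| + 2) ^ (C * (α |x| + 1))` ones, is decided in polynomial time relative to `A`. -/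
def IsTime (α : ℕ → ℕ) (A : Oracle) (L : Set (List Bool)) : Prop :=
  ∃ (C : ℕ) (V : List Bool → List Bool), IsFP A V ∧ ∀ x : List Bool,
    x ∈ L ↔ V (pairBits (List.replicate ((x.length + 2) ^ (C * (α x.length + 1))) true) x) = [true]

theorem result (α : ℕ → ℕ) (hα : Monotone α) (hα' : Tendsto α atTop atTop) :
    ∃ A : Oracle, (∀ L, IsPH A L → IsP A L) ∧
      (∀ L, IsPSPACE A L → IsEQP A L ∧ IsTime α A L) ∧
      ∃ L, IsEQP A L ∧ ¬ IsPH A L :=
  Pool.Agent.K7x.EQ.world α hα hα'

end Pool.Agent.Results.MP_2eaaa0_lc.ExactQuantum
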