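import Pool.Agent.H9x.SN.World

/-!
# Languages and promise problems: `BQP` at any level of the hierarchy, `PromiseBQP` outside

For every `κ` (a natural number or infinity) there is an oracle relative to which the polynomial
hierarchy is infinite, all languages of `BQP` are in the hierarchy, they are contained in the level
`j` exactly if `κ ≤ j`, and still some promise problem of `PromiseBQP` is in no level of the
hierarchy.
-/

set_option autoImplicit false

namespace Pool.Agent.Results.MP_2eaaa0_lc.PromiseOutside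

open Pool.Agent.NPC Pool.Agent.H620R2.Gauge Pool.Agent.H9x.Q Pool.Agent.H591R3.PHG

theorem result (κ : ℕ∞) :
    ∃ A : Oracle, (∀ k, ∃ L, IsSig A (k + 1) L ∧ ¬ IsSig A k L) ∧
      (∀ L, IsBQP A L → IsPH A L) ∧
      (∀ j : ℕ, (∀ L, IsBQP A L → IsSig A j L) ↔ κ ≤ j) ∧
      ∃ F : QFamily, ∀ L, IsPH A L →
        ∃ x, (2 / 3 ≤ F.acc A x ∧ x ∉ L) ∨ (F.acc A x ≤ 1 / 3 ∧ x ∈ L) :=
  Pool.Agent.H9x.SN.worldN κ

end Pool.Agent.Results.MP_2eaaa0_lc.PromiseOutside
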