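import Pool.Agent.H10x.BP.Fin

/-!
# Above every oracle: `P = PH`, and `BQP` is strongly hard on average for `PH/poly`

Every oracle `O` is decided in polynomial time relative to some oracle `A`, relative to which the
polynomial hierarchy is contained in `P`, and some language `L` in `BQP` has the following property.
For every language `B` in the polynomial hierarchy relative to `A`, every sequence of advice strings
of polynomial length and every polynomial `p`, for all but finitely many `n`, the number of the
inputs of length `n` on which `B` with the advice agrees with `L` is at most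
`(1 / 2 + 1 / (p n + 1)) * 2 ^ n`.
-/

set_option autoImplicit false

namespace Pool.Agent.Results.MP_2eaaa0_lc.StronglyHardOnAverage

open Pool.Agent.NPC Pool.Agent.H620R2.Gauge Pool.Agent.H9x.Q Filter

/-- The number of the inputs of length `n` on which `B`, given the advice `w`, agrees with `L`. -/
noncomputable def agreement (L B : Set (List Bool)) (w : List Bool) (n : ℕ) : ℕ :=
  {x : Fin n → Bool | List.ofFn x ∈ L ↔ pairBits w (List.ofFn x) ∈ B}.ncard

theorem result (O : Oracle) :
    ∃ A : Oracle, IsP A {x | O x = true} ∧ (∀ L, IsPH A L → IsP A L) ∧
      ∃ L, IsBQP A L ∧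
        ∀ (B : Set (List Bool)) (adv : ℕ → List Bool) (q p : Polynomial ℕ), IsPH A B →
          (∀ n, (adv n).length ≤ q.eval n) →
          ∀ᶠ n in atTop, (agreement L B (adv n) n : ℝ) ≤
            (1 / 2 + 1 / (((p.eval n : ℕ) : ℝ) + 1)) * 2 ^ n :=
  Pool.Agent.H10x.BP.world O

end Pool.Agent.Results.MP_2eaaa0_lc.StronglyHardOnAverage
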